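import Mathlib

set_option autoImplicit false

namespace Pool.Agent.H.MP_973dba_an

open scoped ENNReal

noncomputable def Uxy {X : Type} [NormedAddCommGroup X] (x y : X) (a : ℝ) : ℝ≥0∞ :=
  ⨆ z ∈ Metric.closedBall (0 : X) a, ENNReal.ofReal |‖x + z‖ - ‖y + z‖|

noncomputable def U (X : Type) [NormedAddCommGroup X] (d a : ℝ) : ℝ≥0∞ :=
  ⨅ x ∈ Metric.sphere (0 : X) 1, ⨅ y ∈ Metric.sphere (0 : X) 1, ⨅ _ : d ≤ ‖x - y‖, Uxy x y a

def UnifS (X : Type) [NormedAddCommGroup X] : Prop :=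
  ∀ d a : ℝ, 0 < d → d < 2 → 0 < a → 0 < U X d a

end Pool.Agent.H.MP_973dba_an
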