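import Mathlib
import Pool.Agent.H.MP_973dba_an.Defs

set_option autoImplicit false

namespace Pool.Agent.H.MP_973dba_an

open Set Filter Topology MeasureTheory
open scoped ENNReal Classical

noncomputable abbrev mu : Measure ℝ := volume.restrict (Ioc 0 1)

noncomputable abbrev X : Type := ℝ →₁[mu] ℝ

noncomputable def P (A : Set ℝ) : X →L[ℝ] X :=
  if h : MeasurableSet A then (ContinuousLinearMap.mul ℝ ℝ).holderL mu ∞ 1 1
    (indicatorConstLp ∞ h (measure_ne_top _ _) 1) else 0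

theorem P_ae {A : Set ℝ} (h : MeasurableSet A) (g : X) : P A g =ᵐ[mu] A.indicator g := by
  rw [P, dif_pos h]
  filter_upwards [(ContinuousLinearMap.mul ℝ ℝ).coeFn_holder (r := 1)
    (indicatorConstLp ∞ h (measure_ne_top mu _) 1) g,
    indicatorConstLp_coeFn (p := ∞) (hs := h) (hμs := measure_ne_top mu _) (c := (1 : ℝ))] with t h1 h2
  refine h1.trans ?_
  rw [h2]
  by_cases ht : t ∈ A <;> simp [ht]

theorem norm_P {A : Set ℝ} (h : MeasurableSet A) (g : X) : ‖P A g‖ = ∫ t in A, |g t| ∂mu := by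
  rw [L1.norm_eq_integral_norm, ← integral_indicator h]
  refine integral_congr_ae ?_
  filter_upwards [P_ae h g] with t ht
  rw [ht]; by_cases ht : t ∈ A <;> simp [ht]

theorem P_compl {A : Set ℝ} (h : MeasurableSet A) (g : X) : ‖P A g‖ + ‖P Aᶜ g‖ = ‖g‖ := by
  rw [norm_P h, norm_P h.compl, integral_add_compl h (L1.integrable_coeFn g).abs,
    L1.norm_eq_integral_norm]
  rfl

theorem P_le {A : Set ℝ} (h : MeasurableSet A) (g : X) : ‖P A g‖ ≤ ‖g‖ := by
  linarith [P_compl h g, norm_nonneg (P Aᶜ g)]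

theorem P_P {A B : Set ℝ} (h : MeasurableSet A) (h' : MeasurableSet B) (g : X) :
    P A (P B g) = P (A ∩ B) g := by
  refine Lp.ext ?_
  filter_upwards [P_ae h (P B g), P_ae h' g, P_ae (h.inter h') g] with t h1 h2 h3
  rw [h1, h3, ← indicator_indicator]
  by_cases ht : t ∈ A <;> simp [ht, h2]

theorem P_union {A B : Set ℝ} (h : MeasurableSet A) (h' : MeasurableSet B) (hd : Disjoint A B)
    (g : X) : P (A ∪ B) g = P A g + P B g := by
  refine Lp.ext ?_
  filter_upwards [P_ae h g, P_ae h' g, P_ae (h.union h') g, Lp.coeFn_add (P A g) (P B g)]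
    with t h1 h2 h3 h4
  rw [h4, h3, Pi.add_apply, h1, h2, indicator_union_of_disjoint hd]

theorem P_empty (g : X) : P ∅ g = 0 := norm_eq_zero.1 (by simp [norm_P])

theorem P_add {A : Set ℝ} (h : MeasurableSet A) (g : X) : P A g + P Aᶜ g = g := by
  rw [← P_union h h.compl disjoint_compl_right, union_compl_self]
  exact Lp.ext (by simpa using P_ae MeasurableSet.univ g)

noncomputable def I : StrongDual ℝ X := L1.integralCLM

theorem I_apply (g : X) : I g = ∫ t, g t ∂mu := by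
  rw [← L1.integral_eq_integral, L1.integral_eq]; rfl

theorem I_le (g : X) : |I g| ≤ ‖g‖ := by
  rw [I_apply, L1.norm_eq_integral_norm]; exact norm_integral_le_integral_norm (g : ℝ → ℝ)

noncomputable def one (A : Set ℝ) : X := P A (Lp.const 1 mu 1)

theorem one_ae {A : Set ℝ} (h : MeasurableSet A) : one A =ᵐ[mu] A.indicator 1 := by
  filter_upwards [P_ae h (Lp.const 1 mu 1), Lp.coeFn_const 1 mu (1 : ℝ)] with t h1 h2
  rw [one, h1, indicator_apply, h2]; rfl

theorem I_one {A : Set ℝ} (h : MeasurableSet A) : I (one A) = mu.real A := by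
  rw [I_apply, integral_congr_ae (one_ae h), integral_indicator_one h]

theorem norm_one' {A : Set ℝ} (h : MeasurableSet A) : ‖one A‖ = mu.real A := by
  rw [L1.norm_eq_integral_norm, ← integral_indicator_one h]
  refine integral_congr_ae ?_
  filter_upwards [one_ae h] with t ht
  rw [ht]; by_cases ht : t ∈ A <;> simp [ht]

theorem bound (ψ : StrongDual ℝ X) {ε : ℝ} (hε : 0 ≤ ε)
    (h : ∀ B, MeasurableSet B → |ψ (one B)| ≤ ε * mu.real B) : ‖ψ‖ ≤ ε := by
  refine ContinuousLinearMap.opNorm_le_bound _ hε fun g => ?_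
  induction g using Lp.induction ENNReal.one_ne_top with
  | indicatorConst c hs hμ =>
    rename_i s
    have : (Lp.simpleFunc.indicatorConst 1 hs hμ.ne c : X) = c • one s := by
      refine Lp.ext ?_
      filter_upwards [indicatorConstLp_coeFn (p := 1) (hs := hs) (hμs := hμ.ne) (c := c),
        Lp.coeFn_smul c (one s), one_ae hs] with t h1 h2 h3
      rw [Lp.simpleFunc.coe_indicatorConst, h1, h2, Pi.smul_apply, h3]
      by_cases ht : t ∈ s <;> simp [ht]
    rw [this, map_smul, norm_smul, norm_smul, norm_one' hs, mul_left_comm]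
    exact mul_le_mul_of_nonneg_left (h s hs) (norm_nonneg _)
  | add hf hg hd h1 h2 =>
    rename_i f g
    have : ‖hf.toLp f + hg.toLp g‖ = ‖hf.toLp f‖ + ‖hg.toLp g‖ := by
      simp only [L1.norm_eq_integral_norm]
      rw [← integral_add (L1.integrable_coeFn _).norm (L1.integrable_coeFn _).norm]
      refine integral_congr_ae ?_
      filter_upwards [Lp.coeFn_add (hf.toLp f) (hg.toLp g), hf.coeFn_toLp, hg.coeFn_toLp]
        with t a1 a2 a3
      rw [a1, Pi.add_apply, a2, a3]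
      by_cases ht : f t = 0
      · simp [ht]
      · simp [Function.notMem_support.1 (disjoint_left.1 hd ht)]
    rw [this, map_add, mul_add]
    exact norm_add_le_of_le h1 h2
  | isClosed => exact isClosed_le (by fun_prop) (by fun_prop)

theorem hahn (φ : StrongDual ℝ X) : ∃ A, MeasurableSet A ∧
    (∀ B, MeasurableSet B → B ⊆ A → 0 ≤ φ (one B)) ∧
    ∀ B, MeasurableSet B → B ⊆ Aᶜ → φ (one B) ≤ 0 := by
  obtain ⟨A, h1, h2, h3⟩ := SignedMeasure.exists_compl_positive_negative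
    (VectorMeasure.of_additive_of_le_measure (μ := ‖φ‖₊ • mu) (fun B => φ (one B)) (fun B => by
      by_cases h : MeasurableSet B
      · refine (φ.le_opNorm_enorm _).trans (le_of_eq ?_)
        rw [← ofReal_norm (one B), norm_one' h, ofReal_measureReal]
        rfl
      · simp [one, P, h])
    (fun s t hs ht hd => by rw [one, P_union hs ht hd, map_add]; rfl) fun s h => by simp [one, P, h])
  exact ⟨A, h1, (VectorMeasure.restrict_le_restrict_iff _ _ h1).1 h2,
    (VectorMeasure.restrict_le_restrict_iff _ _ h1.compl).1 h3⟩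

def Good (W : Ultrafilter ℝ) (φ : StrongDual ℝ X) (c : ℝ) : Prop :=
  ∀ ε, 0 < ε → ∃ A ∈ W, MeasurableSet A ∧
    ∀ B, MeasurableSet B → B ⊆ A → |φ (one B) - c * mu.real B| ≤ ε * mu.real B

variable {W : Ultrafilter ℝ}

theorem pos_of_mem (hW : (W : Filter ℝ) ≤ ae mu) {A : Set ℝ} (h : A ∈ W) : 0 < mu.real A :=
  ENNReal.toReal_pos (fun h0 => (Ultrafilter.compl_mem_iff_notMem.1
    (hW (compl_mem_ae_iff.2 h0))) h) (measure_ne_top _ _)

theorem abs_one (φ : StrongDual ℝ X) {B : Set ℝ} (h : MeasurableSet B) :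
    |φ (one B)| ≤ ‖φ‖ * mu.real B := norm_one' h ▸ φ.le_opNorm _

theorem exists_good (hW : (W : Filter ℝ) ≤ ae mu) (φ : StrongDual ℝ X) : ∃ c, Good W φ c := by
  let S := {c | ∃ A ∈ W, MeasurableSet A ∧ ∀ B, MeasurableSet B → B ⊆ A → c * mu.real B ≤ φ (one B)}
  have hS : BddAbove S := ⟨‖φ‖, by
    rintro c ⟨A, h1, h2, h3⟩
    exact le_of_mul_le_mul_right ((h3 A h2 Subset.rfl).trans ((le_abs_self _).trans (abs_one φ h2)))
      (pos_of_mem hW h1)⟩
  refine ⟨sSup S, fun ε hε => ?_⟩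
  obtain ⟨c, ⟨A, h1, h2, h3⟩, hc⟩ := exists_lt_of_lt_csSup (s := S) ⟨-‖φ‖, univ, univ_mem,
    MeasurableSet.univ, fun B hB _ => by linarith [(abs_le.1 (abs_one φ hB)).1]⟩ (sub_lt_self _ hε)
  obtain ⟨C, h4, h5, h6⟩ := hahn (φ - (sSup S + ε) • I)
  have h7 : Cᶜ ∈ W := Ultrafilter.compl_mem_iff_notMem.2 fun h => by
    have := le_csSup hS (a := sSup S + ε) ⟨C, h, h4, fun B hB hC => by
      simpa [I_one hB] using h5 B hB hC⟩
    linarith
  refine ⟨A ∩ Cᶜ, inter_mem h1 h7, h2.inter h4.compl, fun B hB h => ?_⟩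
  have a1 := h3 B hB (h.trans inter_subset_left)
  have a2 : φ (one B) ≤ (sSup S + ε) * mu.real B := by
    simpa [I_one hB] using h6 B hB (h.trans inter_subset_right)
  have a3 := mul_le_mul_of_nonneg_right hc.le (measureReal_nonneg (μ := mu) (s := B))
  rw [abs_le]; constructor <;> linarith

theorem Good.le (hW : (W : Filter ℝ) ≤ ae mu) {φ : StrongDual ℝ X} {c : ℝ} (h : Good W φ c) :
    |c| ≤ ‖φ‖ := by
  refine le_of_forall_pos_le_add fun ε hε => ?_
  obtain ⟨A, h1, h2, h3⟩ := h ε hε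
  refine le_of_mul_le_mul_right ?_ (pos_of_mem hW h1)
  have := abs_sub_abs_le_abs_sub (c * mu.real A) (φ (one A))
  rw [abs_mul, abs_of_pos (pos_of_mem hW h1), abs_sub_comm] at this
  linarith [h3 A h2 Subset.rfl, abs_one φ h2]

theorem Good.lin {φ ψ : StrongDual ℝ X} {c d : ℝ} (h : Good W φ c) (h' : Good W ψ d) (a : ℝ) :
    Good W (a • φ + ψ) (a * c + d) := by
  intro ε hε
  obtain ⟨A, h1, h2, h3⟩ := h (ε / (|a| + 1)) (by positivity)
  obtain ⟨A', h4, h5, h6⟩ := h' (ε / (|a| + 1)) (by positivity)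
  refine ⟨A ∩ A', inter_mem h1 h4, h2.inter h5, fun B hB hs => ?_⟩
  have e : (a • φ + ψ) (one B) - (a * c + d) * mu.real B =
      a * (φ (one B) - c * mu.real B) + (ψ (one B) - d * mu.real B) := by simp; ring
  rw [e, show ε = |a| * (ε / (|a| + 1)) + ε / (|a| + 1) by field_simp, add_mul, mul_assoc]
  refine (abs_add_le _ _).trans (add_le_add ?_ (h6 B hB (hs.trans inter_subset_right)))
  rw [abs_mul]
  exact mul_le_mul_of_nonneg_left (h3 B hB (hs.trans inter_subset_left)) (abs_nonneg _)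

theorem Good.uniq (hW : (W : Filter ℝ) ≤ ae mu) {φ : StrongDual ℝ X} {c d : ℝ} (h : Good W φ c)
    (h' : Good W φ d) : c = d := by
  have := (h.lin h' (-1)).le hW
  rw [show (-1 : ℝ) • φ + φ = 0 by ext; simp, ContinuousLinearMap.opNorm_zero, abs_nonpos_iff] at this
  linarith

theorem exists_atom (hW : (W : Filter ℝ) ≤ ae mu) :
    ∃ p : StrongDual ℝ (StrongDual ℝ X), ∀ φ, Good W φ (p φ) := by
  choose c hc using exists_good hW
  have h0 : Good W 0 0 := fun ε hε => ⟨univ, univ_mem, MeasurableSet.univ, fun B _ _ => by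
    simpa using mul_nonneg hε.le measureReal_nonneg⟩
  exact ⟨LinearMap.mkContinuous
    { toFun := c
      map_add' := fun φ ψ => (hc _).uniq hW (by simpa using (hc φ).lin (hc ψ) 1)
      map_smul' := fun a φ => (hc _).uniq hW (by simpa using (hc φ).lin h0 a) } 1
    fun φ => by simpa using (hc φ).le hW, hc⟩

theorem Good.norm {φ : StrongDual ℝ X} {c : ℝ} (h : Good W φ c) {A0 : Set ℝ} (h1 : A0 ∈ W)
    (h2 : MeasurableSet A0) {ε : ℝ} (hε : 0 < ε) :
    ∃ A ∈ W, MeasurableSet A ∧ A ⊆ A0 ∧ ‖(φ - c • I).comp (P A)‖ ≤ ε := by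
  obtain ⟨A, h3, h4, h5⟩ := h ε hε
  have h6 := h4.inter h2
  refine ⟨A ∩ A0, inter_mem h3 h1, h6, inter_subset_right, bound _ hε.le fun B hB => ?_⟩
  have := h5 _ (h6.inter hB) (inter_subset_left.trans inter_subset_left)
  rw [← I_one (h6.inter hB), one, ← P_P h6 hB] at this
  refine le_trans (le_of_eq (by simp [one])) (this.trans (mul_le_mul_of_nonneg_left ?_ hε.le))
  rw [← norm_one' hB]
  exact (le_abs_self _).trans ((I_le _).trans (P_le h6 _))

theorem good_one {A : Set ℝ} (h1 : A ∈ W) (h2 : MeasurableSet A) (f : StrongDual ℝ X) :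
    Good W (f.comp (P Aᶜ) + I.comp (P A)) 1 := fun ε hε => ⟨A, h1, h2, fun B hB h => by
  have : Aᶜ ∩ B = ∅ := (disjoint_compl_left.mono_right h).inter_eq
  simp only [one, ContinuousLinearMap.add_apply, ContinuousLinearMap.comp_apply, P_P h2.compl hB,
    P_P h2 hB, this, P_empty, inter_eq_right.2 h]
  rw [← one, I_one hB]
  simpa using mul_nonneg hε.le measureReal_nonneg⟩

theorem abstr {E : Type} [NormedAddCommGroup E] [NormedSpace ℝ E] (p q : StrongDual ℝ E)
    (hp : ∀ f, |p f| ≤ ‖f‖) (hq : ∀ f, |q f| ≤ ‖f‖) (g : E) (hg : ‖g‖ ≤ 1) (hg1 : p g = 1)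
    (hg2 : q g = -1) (H : ∀ f, ‖f‖ ≤ 1 → ∀ ε, 0 < ε → ∃ u v w w' f', ‖u‖ ≤ 1 ∧ ‖v‖ ≤ 1 ∧ ‖w‖ ≤ ε ∧
      ‖w'‖ ≤ ε ∧ ‖f'‖ ≤ 1 ∧ p f' = 1 ∧ q f' = 1 ∧ f' = f + (1 - p f) • u + (1 - q f) • v - w - w') :
    ¬ UnifS (StrongDual ℝ E) := by
  have key : ∀ (a b a' b' : ℝ) (ν : StrongDual ℝ E), a + b = 1 → a' + b' = 1 →
      ‖ν‖ ≤ a → ‖ν‖ ≤ b → ‖a • p + b • q + ν‖ ≤ ‖a' • p + b' • q + ν‖ := by
    intro a b a' b' ν e1 e2 e3 e4
    suffices ∀ f, ‖f‖ ≤ 1 → (a • p + b • q + ν) f ≤ ‖a' • p + b' • q + ν‖ from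
      ContinuousLinearMap.opNorm_le_of_unit_norm (norm_nonneg _) fun f hf => abs_le.2
        ⟨by have := this (-f) (by simp [hf]); rw [map_neg] at this; linarith, this f hf.le⟩
    refine fun f hf => le_of_forall_pos_le_add fun ε hε => ?_
    obtain ⟨u, v, w, w', f', a1, a2, a3, a4, a5, c1, c2, c4⟩ := H f hf ε hε
    have c3 := (le_abs_self _).trans ((a' • p + b' • q + ν).unit_le_opNorm _ a5)
    have c6 := abs_le.1 (ν.le_opNorm_of_le a3)
    have c7 := abs_le.1 (ν.le_opNorm_of_le a4)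
    have c8 := abs_le.1 ((hp f).trans hf)
    have c9 := abs_le.1 ((hq f).trans hf)
    simp only [add_apply, smul_apply, smul_eq_mul, c1, c2] at c3 ⊢
    rw [c4] at c3
    simp only [map_add, map_sub, map_smul, smul_eq_mul] at c3
    nlinarith [mul_le_mul_of_nonneg_left (abs_le.1 ((ν.unit_le_opNorm u a1).trans e3)).1
      (sub_nonneg.2 c8.2), mul_le_mul_of_nonneg_left
      (abs_le.1 ((ν.unit_le_opNorm v a2).trans e4)).1 (sub_nonneg.2 c9.2)]
  have hs : ∀ a b : ℝ, 0 ≤ a → 0 ≤ b → a + b = 1 → ‖a • p + b • q‖ = 1 := fun a b ha hb e => by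
    refine le_antisymm (ContinuousLinearMap.opNorm_le_of_unit_norm zero_le_one fun f hf => ?_) ?_
    · have c8 := abs_le.1 ((hp f).trans hf.le)
      have c9 := abs_le.1 ((hq f).trans hf.le)
      simp only [add_apply, smul_apply, smul_eq_mul, Real.norm_eq_abs, abs_le]
      constructor <;> nlinarith
    · obtain ⟨u, v, w, w', f', -, -, -, -, a5, c1, c2, -⟩ := H 0 (by simp) 1 one_pos
      simpa [c1, c2, e] using (a • p + b • q).unit_le_opNorm _ a5
  intro h
  refine absurd (h 1 (1 / 4) one_pos one_lt_two (by norm_num)) (not_lt.2 (iInf₂_le_of_le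
    ((3 / 4 : ℝ) • p + (1 / 4 : ℝ) • q) (mem_sphere_zero_iff_norm.2 (hs _ _ (by norm_num)
      (by norm_num) (by norm_num))) (iInf₂_le_of_le
    ((1 / 4 : ℝ) • p + (3 / 4 : ℝ) • q) (mem_sphere_zero_iff_norm.2 (hs _ _ (by norm_num)
      (by norm_num) (by norm_num))) (iInf_le_of_le ?_ (iSup₂_le fun z hz => ?_)))))
  · refine le_trans ?_ (ContinuousLinearMap.unit_le_opNorm _ _ hg)
    simp only [add_apply, smul_apply, smul_eq_mul, sub_apply, hg1, hg2]
    norm_num
  · rw [mem_closedBall_zero_iff] at hz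
    rw [le_antisymm (key _ _ (1 / 4) (3 / 4) z (by norm_num) (by norm_num) (by linarith) hz)
      (key _ _ _ _ z (by norm_num) (by norm_num) hz (by linarith))]
    simp

theorem not_unif : ¬ UnifS (StrongDual ℝ (StrongDual ℝ X)) := by
  have hm : MeasurableSet (Iic (1 / 2 : ℝ)) := measurableSet_Iic
  have hex : ∀ A, MeasurableSet A → mu A ≠ 0 → ∃ W : Ultrafilter ℝ, (W : Filter ℝ) ≤ ae mu ∧ A ∈ W :=
    fun A h h' => by
      haveI := ae_restrict_neBot.2 h'
      have := Ultrafilter.of_le (ae (mu.restrict A))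
      exact ⟨_, this.trans ae_restrict_le, this (ae_restrict_mem h)⟩
  obtain ⟨W, hW, h1⟩ := hex _ hm (by
    rw [Measure.restrict_apply hm, inter_comm, Ioc_inter_Iic]; norm_num)
  obtain ⟨V, hV, h2⟩ := hex _ hm.compl (by
    rw [Measure.restrict_apply hm.compl, compl_Iic, inter_comm, Ioc_inter_Ioi]; norm_num)
  obtain ⟨p, hp⟩ := exists_atom hW
  obtain ⟨q, hq⟩ := exists_atom hV
  have hn : ∀ A, MeasurableSet A → ∀ f : StrongDual ℝ X, ‖f‖ ≤ 1 → ∀ g : StrongDual ℝ X, ‖g‖ ≤ 1 →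
      ‖f.comp (P Aᶜ) + g.comp (P A)‖ ≤ 1 := fun A h f hf g hg =>
    ContinuousLinearMap.opNorm_le_bound _ zero_le_one fun x => by
      linarith [norm_add_le_of_le (f.le_of_opNorm_le hf (P Aᶜ x)) (g.le_of_opNorm_le hg (P A x)),
        P_compl h x, show ‖(f.comp (P Aᶜ) + g.comp (P A)) x‖ = ‖f (P Aᶜ x) + g (P A x)‖ from rfl]
  have hI : ‖I‖ ≤ 1 := ContinuousLinearMap.opNorm_le_bound _ zero_le_one fun x => by
    simpa using I_le x
  have c5 : ∀ C, MeasurableSet C → ‖I.comp (P C)‖ ≤ 1 := fun C h =>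
    ContinuousLinearMap.opNorm_le_bound _ zero_le_one fun x => by
      simpa using (I_le _).trans (P_le h x)
  refine abstr p q (fun f => (hp f).le hW) (fun f => (hq f).le hV) _
    (hn _ hm (-I) ((ContinuousLinearMap.opNorm_neg I).trans_le hI) I hI)
    ((hp _).uniq hW (good_one h1 hm (-I))) ?_ fun f hf ε hε => ?_
  · have c2 := (hq _).uniq hV (good_one h2 hm.compl (-I))
    have c3 : (-I).comp (P (Iic (1 / 2))ᶜᶜ) + I.comp (P (Iic (1 / 2))ᶜ) =
        -((-I).comp (P (Iic (1 / 2))ᶜ) + I.comp (P (Iic (1 / 2)))) := by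
      rw [compl_compl]; ext; simp
    rwa [c3, map_neg, neg_eq_iff_eq_neg] at c2
  obtain ⟨A, a1, a2, a3, a4⟩ := (hp f).norm h1 hm hε
  obtain ⟨B, b1, b2, b3, b4⟩ := (hq f).norm h2 hm.compl hε
  refine ⟨_, _, _, _, _, c5 A a2, c5 B b2, a4, b4, hn _ (a2.union b2) f hf I hI,
    (hp _).uniq hW (good_one (mem_of_superset a1 subset_union_left) (a2.union b2) f),
    (hq _).uniq hV (good_one (mem_of_superset b1 subset_union_right) (a2.union b2) f), ?_⟩
  ext x
  have := congrArg f (P_add (a2.union b2) x)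
  simp only [P_union a2 b2 (disjoint_compl_right.mono a3 b3), map_add] at this
  simp only [P_union a2 b2 (disjoint_compl_right.mono a3 b3), add_apply, sub_apply, smul_apply,
    ContinuousLinearMap.comp_apply, smul_eq_mul, map_add]
  linarith

theorem piece {a : ℝ} (ha : 0 < a) : ∃ N : ℕ, 0 < N ∧ ∀ x y : X, ‖x‖ = 1 → ‖y‖ = 1 →
    ∃ A, MeasurableSet A ∧ ‖P A x‖ + ‖P A y‖ ≤ a ∧ ‖x - y‖ / N ≤ ‖P A (x - y)‖ := by
  obtain ⟨N, hN⟩ := exists_nat_gt (2 / a)
  have h0 : (0 : ℝ) < N := lt_trans (by positivity) hN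
  refine ⟨N, Nat.cast_pos.1 h0, fun x y hx hy => ?_⟩
  have e0 : ∀ g : X, ‖P (Ioc 0 1) g‖ = ‖g‖ := fun g => by
    rw [norm_P measurableSet_Ioc, Measure.restrict_restrict_of_subset Subset.rfl,
      L1.norm_eq_integral_norm]; rfl
  have e1 : ∀ (g : X) s t, 0 ≤ s → s ≤ t → ‖P (Ioc 0 t) g‖ = ‖P (Ioc 0 s) g‖ + ‖P (Ioc s t) g‖ :=
    fun g s t hs h => by
      simp only [norm_P measurableSet_Ioc]
      rw [← setIntegral_union (Ioc_disjoint_Ioc_of_le le_rfl) measurableSet_Ioc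
        (L1.integrable_coeFn g).abs.integrableOn (L1.integrable_coeFn g).abs.integrableOn,
        Ioc_union_Ioc_eq_Ioc hs h]
  let G : ℝ → ℝ := fun t => ‖P (Ioc 0 t) x‖ + ‖P (Ioc 0 t) y‖
  have hG : ContinuousOn G (Icc 0 1) := by
    simp only [G, norm_P measurableSet_Ioc]
    exact (intervalIntegral.continuousOn_primitive (L1.integrable_coeFn x).abs.integrableOn).add
      (intervalIntegral.continuousOn_primitive (L1.integrable_coeFn y).abs.integrableOn)
  have h1 : ∀ i : ℕ, ∃ t ∈ Icc (0 : ℝ) 1, i ≤ N → G t = 2 * i / N := fun i => by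
    by_cases h : i ≤ N
    · obtain ⟨t, h2, h3⟩ := intermediate_value_Icc zero_le_one hG (show 2 * (i : ℝ) / N ∈ _ by
        simp only [G, Ioc_self, P_empty, e0, hx, hy, norm_zero, add_zero, mem_Icc]
        exact ⟨by positivity, by
          rw [div_le_iff₀ h0]; linarith [(Nat.cast_le (α := ℝ)).2 h]⟩)
      exact ⟨t, h2, fun _ => h3⟩
    · exact ⟨0, by simp, fun h' => absurd h' h⟩
  choose t h1 h2 using h1
  have h3 : ∀ i < N, t i ≤ t (i + 1) ∧
      ‖P (Ioc (t i) (t (i + 1))) x‖ + ‖P (Ioc (t i) (t (i + 1))) y‖ ≤ a := fun i hi => by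
    have b1 := h2 i hi.le
    have b2 := h2 (i + 1) hi
    have b3 : 2 * ((i + 1 : ℕ) : ℝ) / N = 2 * i / N + 2 / N := by push_cast; ring
    have b4 : (0 : ℝ) < 2 / N := by positivity
    have b5 : t i ≤ t (i + 1) := le_of_not_ge fun h => by
      simp only [G] at b1 b2
      linarith [e1 x _ _ (h1 _).1 h, e1 y _ _ (h1 _).1 h, norm_nonneg (P (Ioc (t (i + 1)) (t i)) x),
        norm_nonneg (P (Ioc (t (i + 1)) (t i)) y)]
    refine ⟨b5, ?_⟩
    have b6 : 2 / (N : ℝ) ≤ a := by rw [div_le_comm₀ h0 ha]; exact hN.le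
    simp only [G] at b1 b2
    linarith [e1 x _ _ (h1 _).1 b5, e1 y _ _ (h1 _).1 b5]
  have h4 : ∀ g : X, ‖P (Ioc 0 (t N)) g‖ = ‖P (Ioc 0 (t 0)) g‖ +
      ∑ i ∈ Finset.range N, ‖P (Ioc (t i) (t (i + 1))) g‖ := fun g => by
    rw [← sub_eq_iff_eq_add', ← Finset.sum_range_sub fun i => ‖P (Ioc 0 (t i)) g‖]
    exact Finset.sum_congr rfl fun i hi => by
      rw [e1 g _ _ (h1 _).1 (h3 i (Finset.mem_range.1 hi)).1, add_sub_cancel_left]
  obtain ⟨i, hi, h5⟩ := Finset.exists_le_of_sum_le (s := Finset.range N) (f := fun _ => ‖x - y‖ / N)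
    (g := fun i => ‖P (Ioc (t i) (t (i + 1))) (x - y)‖) ⟨0, by simpa using h0⟩ (by
      have b1 := h2 0 (Nat.zero_le _)
      have b2 := h2 N le_rfl
      rw [mul_div_cancel_right₀ _ h0.ne'] at b2
      simp only [G, Nat.cast_zero, mul_zero, zero_div] at b1 b2
      rw [Finset.sum_const, Finset.card_range, nsmul_eq_mul, mul_div_cancel₀ _ h0.ne']
      have b3 := fun A => (map_sub (P A) x y ▸ norm_sub_le _ _ : ‖P A (x - y)‖ ≤ ‖P A x‖ + ‖P A y‖)
      linarith [h4 (x - y), b3 (Ioc 0 (t 0)), b3 (Ioc (t N) 1), e1 (x - y) _ _ (h1 N).1 (h1 N).2,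
        e1 x _ _ (h1 N).1 (h1 N).2, e1 y _ _ (h1 N).1 (h1 N).2, e0 x, e0 y, e0 (x - y)])
  exact ⟨_, measurableSet_Ioc, (h3 i (Finset.mem_range.1 hi)).2, h5⟩

theorem unif : UnifS X := by
  intro d a hd _ ha
  obtain ⟨N, h0, hN⟩ := piece ha
  refine lt_of_lt_of_le (ENNReal.ofReal_pos.2 (show 0 < d / N by positivity))
    (le_iInf₂ fun x hx => le_iInf₂ fun y hy => le_iInf fun h => ?_)
  rw [mem_sphere_zero_iff_norm] at hx hy
  obtain ⟨A, h1, h2, h3⟩ := hN x y hx hy
  have h4 : d / N ≤ ‖P A (x - y)‖ := le_trans (by gcongr) h3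
  have e : ∀ u v : X, ‖u + -P A v‖ = ‖P A (u - v)‖ + ‖P Aᶜ u‖ := fun u v => by
    rw [← P_compl h1]
    simp [P_P h1 h1, P_P h1.compl h1, P_empty, sub_eq_add_neg]
  have e' : ‖P A (y - x)‖ = ‖P A (x - y)‖ := by rw [← neg_sub, map_neg, norm_neg]
  by_cases h5 : ‖P Aᶜ y‖ ≤ ‖P Aᶜ x‖
  · refine le_iSup₂_of_le (-P A y) (by simp; linarith [norm_nonneg (P A x)])
      (ENNReal.ofReal_le_ofReal (le_trans ?_ (le_abs_self _)))
    simp only [e, sub_self, map_zero, norm_zero]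
    linarith
  · refine le_iSup₂_of_le (-P A x) (by simp; linarith [norm_nonneg (P A y)])
      (ENNReal.ofReal_le_ofReal (le_trans ?_ (neg_le_abs _)))
    simp only [e, sub_self, map_zero, norm_zero]
    linarith

end Pool.Agent.H.MP_973dba_an
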